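import Pool.Agent.H56.KAF.Stmts

/-!
# Restriction of a law to an event
-/

set_option autoImplicit false

namespace Pool.KAF

open Finset Real
open Pool.Agent.H49.Ent Pool.Agent.H32.Dense Pool.STK

variable {Ω : Type} [Fintype Ω] {S T U : Type}

/-- Conditional entropy given a pair, as an average over the values of one member of the pair. -/
theorem CH_split [DecidableEq U] {p : Ω → ℝ} (hp : ∀ ω, 0 ≤ p ω) (A : Ω → S) (Z : Ω → T)
    (W : Ω → U) :
    CH p A (fun ω => (Z ω, W ω)) =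
      ∑ w ∈ univ.image W, law p W w * CH (Pool.Agent.H49.Ent.cond p W w) A Z := by
  have h1 := CH_eq_sum hp (fun ω => (A ω, Z ω)) W
  have h2 := CH_eq_sum hp Z W
  have h3 := CH_chain hp A Z W
  have h4 : ∑ w ∈ univ.image W, law p W w * CH (Pool.Agent.H49.Ent.cond p W w) A Z =
      ∑ w ∈ univ.image W, law p W w * H (Pool.Agent.H49.Ent.cond p W w) (fun ω => (A ω, Z ω)) -
      ∑ w ∈ univ.image W, law p W w * H (Pool.Agent.H49.Ent.cond p W w) Z := by
    rw [← Finset.sum_sub_distrib]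
    refine Finset.sum_congr rfl fun w _ => ?_
    unfold CH
    ring
  rw [h4]
  linarith

theorem law_pair_le {p : Ω → ℝ} (hp : ∀ ω, 0 ≤ p ω) (A : Ω → S) (W : Ω → U) (a : S) (w : U) :
    law p (fun ω => (A ω, W ω)) (a, w) ≤ law p A a := by
  classical
  unfold law
  refine Finset.sum_le_sum fun ω _ => ?_
  by_cases h : A ω = a <;> by_cases h' : W ω = w <;> simp [h, h', hp ω]

theorem law_pair_le' {p : Ω → ℝ} (hp : ∀ ω, 0 ≤ p ω) (A : Ω → S) (W : Ω → U) (a : S) (w : U) :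
    law p (fun ω => (A ω, W ω)) (a, w) ≤ law p W w := by
  classical
  unfold law
  refine Finset.sum_le_sum fun ω _ => ?_
  by_cases h : A ω = a <;> by_cases h' : W ω = w <;> simp [h, h', hp ω]

theorem Pr_eq (p : Ω → ℝ) (E : Set Ω) [DecidablePred (· ∈ E)] :
    Pr p E = ∑ ω, if ω ∈ E then p ω else 0 := by
  classical
  unfold Pr law
  refine Finset.sum_congr rfl fun ω _ => ?_
  by_cases h : ω ∈ E <;> simp [h]

theorem Pr_nonneg {p : Ω → ℝ} (hp : ∀ ω, 0 ≤ p ω) (E : Set Ω) : 0 ≤ Pr p E :=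
  law_nonneg hp _ _

theorem Pr_le_one {p : Ω → ℝ} (hp : IsLaw p) (E : Set Ω) : Pr p E ≤ 1 :=
  (law_le_total hp.nonneg _ _).trans hp.sum_one.le

theorem Pr_mono {p : Ω → ℝ} (hp : ∀ ω, 0 ≤ p ω) {E F : Set Ω} (h : ∀ ω, 0 < p ω → ω ∈ E → ω ∈ F) :
    Pr p E ≤ Pr p F := by
  classical
  rw [Pr_eq, Pr_eq]
  refine Finset.sum_le_sum fun ω _ => ?_
  by_cases h1 : ω ∈ E
  · rcases (hp ω).eq_or_lt with h0 | h0
    · simp [← h0]
    · simp [h1, h ω h0 h1]
  · rw [if_neg h1]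
    split_ifs
    exacts [hp ω, le_rfl]

theorem Pr_union_le {p : Ω → ℝ} (hp : ∀ ω, 0 ≤ p ω) (E F : Set Ω) :
    Pr p (E ∪ F) ≤ Pr p E + Pr p F := by
  classical
  rw [Pr_eq, Pr_eq, Pr_eq, ← Finset.sum_add_distrib]
  refine Finset.sum_le_sum fun ω _ => ?_
  have := hp ω
  by_cases h1 : ω ∈ E <;> by_cases h2 : ω ∈ F <;> simp [h1, h2] <;> linarith

theorem Pr_false {p : Ω → ℝ} (hp : IsLaw p) (E : Set Ω) :
    law p (fun ω => ω ∈ E) False = 1 - Pr p E := by
  classical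
  have h1 := hp.sum_one
  rw [Pr_eq, ← h1, ← Finset.sum_sub_distrib]
  unfold law
  refine Finset.sum_congr rfl fun ω _ => ?_
  by_cases h : ω ∈ E <;> simp [h]

theorem rs_law {p : Ω → ℝ} (hp : IsLaw p) {E : Set Ω} (hE : 0 < Pr p E) : IsLaw (rs p E) :=
  ⟨fun ω => cond_nonneg hp.nonneg _ _ ω, sum_cond p _ hE.ne'⟩

theorem rs_pos_iff {p : Ω → ℝ} (hp : IsLaw p) (E : Set Ω) (ω : Ω) :
    0 < rs p E ω ↔ 0 < p ω ∧ ω ∈ E := by
  unfold rs
  rw [cond_pos_iff hp.nonneg]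
  simp

theorem law_rs_le {p : Ω → ℝ} (hp : IsLaw p) {E : Set Ω} (hE : 0 < Pr p E) (A : Ω → S) (a : S) :
    law (rs p E) A a ≤ law p A a / Pr p E := by
  unfold rs
  rw [law_cond]
  exact div_le_div_of_nonneg_right (law_pair_le hp.nonneg _ _ _ _) hE.le

/-- Entropy under the conditioned law. -/
theorem CH_rs_mul_le {p : Ω → ℝ} (hp : IsLaw p) {E : Set Ω} (hE : 0 < Pr p E) (A : Ω → S)
    (Z : Ω → T) : CH (rs p E) A Z * Pr p E ≤ CH p A Z := by
  classical
  have h1 : CH p A (fun ω => (Z ω, ω ∈ E)) ≤ CH p A Z :=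
    CH_mono_cond hp.nonneg fun ω ω' _ _ h => (Prod.ext_iff.mp h).1
  refine le_trans ?_ h1
  rw [CH_split hp.nonneg A Z (fun ω => ω ∈ E)]
  have hmem : True ∈ univ.image (fun ω => ω ∈ E) := by
    by_contra hc
    exact hE.ne' (law_eq_zero_of_notMem p (fun ω => ω ∈ E) hc)
  have := Finset.single_le_sum (f := fun w => law p (fun ω => ω ∈ E) w *
    CH (Pool.Agent.H49.Ent.cond p (fun ω => ω ∈ E) w) A Z)
    (fun w _ => mul_nonneg (law_nonneg hp.nonneg _ _)
      (CH_nonneg (fun ω => cond_nonneg hp.nonneg _ _ ω) A Z)) hmem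
  refine le_trans (le_of_eq ?_) this
  rw [mul_comm]
  rfl

theorem CH_le_rs {p : Ω → ℝ} (hp : IsLaw p) {E : Set Ω} (hE : 0 < Pr p E) (A : Ω → S)
    (Z : Ω → T) (F : Finset S) (hF : ∀ ω, A ω ∈ F) :
    CH p A Z ≤ CH (rs p E) A Z + Real.log 2 + (1 - Pr p E) * Real.log F.card := by
  classical
  have h0 : CH p A Z ≤ CH p (fun ω => ω ∈ E) Z + CH p A (fun ω => ((ω ∈ E), Z ω)) :=
    CH_le_add hp.nonneg A (fun ω => ω ∈ E) Z
  have h1 : CH p (fun ω => ω ∈ E) Z ≤ Real.log 2 := by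
    have := CH_le_card hp.nonneg hp.sum_one (fun ω => ω ∈ E) Z (fun _ => {True, False})
      (fun ω _ => by by_cases h : ω ∈ E <;> simp [h])
    refine this.trans ?_
    rw [Ex_const hp.sum_one]
    refine Real.log_le_log ?_ ?_
    · rw [Finset.card_pair (by simp)]; norm_num
    · rw [Finset.card_pair (by simp)]; norm_num
  have h2 : CH p A (fun ω => ((ω ∈ E), Z ω)) = CH p A (fun ω => (Z ω, ω ∈ E)) :=
    CH_congr hp.nonneg (fun _ _ _ _ h => (Prod.ext_iff.mp h).1)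
      (fun _ _ _ _ h => (Prod.ext_iff.mp h).1)
      (fun _ _ _ _ h => Prod.ext (Prod.ext_iff.mp h).2 (Prod.ext_iff.mp h).1)
      (fun _ _ _ _ h => Prod.ext (Prod.ext_iff.mp h).2 (Prod.ext_iff.mp h).1)
  have h3 : CH p A (fun ω => (Z ω, ω ∈ E)) ≤ CH (rs p E) A Z +
      (1 - Pr p E) * Real.log F.card := by
    rw [CH_split hp.nonneg A Z (fun ω => ω ∈ E)]
    have hle : ∑ w ∈ univ.image (fun ω => ω ∈ E), law p (fun ω => ω ∈ E) w *
        CH (Pool.Agent.H49.Ent.cond p (fun ω => ω ∈ E) w) A Z ≤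
        ∑ w ∈ ({True, False} : Finset Prop), law p (fun ω => ω ∈ E) w *
        CH (Pool.Agent.H49.Ent.cond p (fun ω => ω ∈ E) w) A Z := by
      refine Finset.sum_le_sum_of_subset_of_nonneg ?_ ?_
      · intro w _
        by_cases h : w <;> simp [h]
      · intro w _ _
        exact mul_nonneg (law_nonneg hp.nonneg _ _)
          (CH_nonneg (fun ω => cond_nonneg hp.nonneg _ _ ω) A Z)
    refine hle.trans ?_
    rw [Finset.sum_pair (by simp)]
    refine add_le_add ?_ ?_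
    · have hc : 0 ≤ CH (rs p E) A Z := CH_nonneg (rs_law hp hE).nonneg A Z
      have hP : law p (fun ω => ω ∈ E) True ≤ 1 := Pr_le_one hp E
      calc _ ≤ 1 * CH (rs p E) A Z := mul_le_mul_of_nonneg_right hP hc
        _ = _ := one_mul _
    · rw [Pr_false hp]
      rcases (Pr_le_one hp E).eq_or_lt with h | h
      · rw [h]; simp
      · have hpos : 0 < law p (fun ω => ω ∈ E) False := by
          rw [Pr_false hp]; linarith
        refine mul_le_mul_of_nonneg_left ?_ (by linarith)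
        have := CH_le_card (p := Pool.Agent.H49.Ent.cond p (fun ω => ω ∈ E) False)
          (fun ω => cond_nonneg hp.nonneg _ _ ω) (sum_cond p _ hpos.ne') A Z (fun _ => F)
          (fun ω _ => hF ω)
        refine this.trans ?_
        rw [Ex_const (sum_cond p _ hpos.ne')]
  linarith

/-- Restriction to an event. -/
theorem rst_thm : RSTStmt := by
  intro Ω S T _ p hp E hE
  exact ⟨rs_law hp hE, rs_pos_iff hp E, fun A a => law_rs_le hp hE A a, fun A Z =>
    ⟨CH_rs_mul_le hp hE A Z, fun F hF => CH_le_rs hp hE A Z F hF⟩⟩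

end Pool.KAF
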