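import Pool.Agent.H73.KAF.RST

/-!
# Restriction to a type: densities increase little
-/

set_option autoImplicit false

namespace Pool.KAF

open Finset Real
open Pool.Agent.H49.Ent Pool.Agent.H32.Dense Pool.STK

namespace RTY

variable {Ω : Type} [Fintype Ω] {S T U : Type}

open Classical in
/-- The law `p` cut off outside `E`. -/
noncomputable def pe (p : Ω → ℝ) (E : Set Ω) (ω : Ω) : ℝ := if ω ∈ E then p ω else 0

omit [Fintype Ω] in
theorem pe_nonneg {p : Ω → ℝ} (hp : ∀ ω, 0 ≤ p ω) (E : Set Ω) (ω : Ω) : 0 ≤ pe p E ω := by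
  unfold pe
  split_ifs
  exacts [hp ω, le_rfl]

theorem law_pe_le {p : Ω → ℝ} (hp : ∀ ω, 0 ≤ p ω) (E : Set Ω) (W : Ω → U) (u : U) :
    law (pe p E) W u ≤ law p W u := by
  classical
  unfold law pe
  refine Finset.sum_le_sum fun ω _ => ?_
  have := hp ω
  split_ifs <;> linarith

theorem law_rs {p : Ω → ℝ} (E : Set Ω) (W : Ω → U) (u : U) :
    law (rs p E) W u = law (pe p E) W u / Pr p E := by
  classical
  unfold rs
  rw [law_cond]
  congr 1
  unfold law pe
  refine Finset.sum_congr rfl fun ω _ => ?_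
  by_cases h : W ω = u <;> by_cases h' : ω ∈ E <;> simp [h, h']

/-- The part of `E` on which `E` has small conditional probability is small. -/
theorem Pr_small {p : Ω → ℝ} (hp : IsLaw p) (W : Ω → U) (E : Set Ω) {c : ℝ} (hc : 0 ≤ c) :
    Pr p {ω | ω ∈ E ∧ law (pe p E) W (W ω) < c * law p W (W ω)} ≤ c := by
  classical
  have e1 : Pr p {ω | ω ∈ E ∧ law (pe p E) W (W ω) < c * law p W (W ω)} =
      ∑ ω, pe p E ω * (fun u => if law (pe p E) W u < c * law p W u then (1 : ℝ) else 0) (W ω) := by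
    rw [Pr_eq]
    refine Finset.sum_congr rfl fun ω _ => ?_
    unfold pe
    simp only [Set.mem_ofPred_eq]
    by_cases h : ω ∈ E
    · simp [h]
    · simp [h]
  rw [e1]
  refine (sum_mul_eq_sum_image (pe p E) W
    (fun u => if law (pe p E) W u < c * law p W u then (1 : ℝ) else 0)).le.trans ?_
  calc _ ≤ ∑ u ∈ univ.image W, c * law p W u := by
        refine Finset.sum_le_sum fun u _ => ?_
        split_ifs with h
        · rw [mul_one]; exact h.le
        · rw [mul_zero]; exact mul_nonneg hc (law_nonneg hp.nonneg _ _)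
    _ = c * ∑ u ∈ univ.image W, law p W u := by rw [Finset.mul_sum]
    _ = c := by rw [sum_law, hp.sum_one, mul_one]

theorem Sup_mono {p : Ω → ℝ} (hp : ∀ ω, 0 ≤ p ω) {A : Ω → S} {B : Ω → T} {δ δ' : ℝ}
    (h : Sup p A B δ) (hd : δ ≤ δ') : Sup p A B δ' := fun ω =>
  (h ω).trans (mul_le_mul_of_nonneg_right hd (law_nonneg hp _ _))

theorem sup_of {p : Ω → ℝ} (hp : IsLaw p) {E E' : Set Ω} (hE : E' ⊆ E) (hpos : 0 < Pr p E')
    (A : Ω → S) (W : Ω → U) {δ s : ℝ} (hδ : 0 ≤ δ)
    (h1 : ∀ ω ∈ E', 0 < p ω → Real.exp (-s) * law p W (W ω) ≤ law (pe p E') W (W ω))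
    (h2 : ∀ ω ∈ E, law p (fun v => (A v, W v)) (A ω, W ω) ≤ δ * law p W (W ω)) :
    Sup (rs p E') A W (Real.exp s * δ) := by
  classical
  intro ω
  rw [law_rs, law_rs, ← mul_div_assoc]
  refine div_le_div_of_nonneg_right ?_ hpos.le
  have hq := pe_nonneg hp.nonneg E'
  by_cases hex : ∃ ω', 0 < p ω' ∧ ω' ∈ E' ∧ A ω' = A ω ∧ W ω' = W ω
  · obtain ⟨ω', hp', hE', hA, hW⟩ := hex
    have a1 := h2 ω' (hE hE')
    have a2 := h1 ω' hE' hp'
    rw [hA, hW] at a1
    rw [hW] at a2
    have a3 : law (pe p E') (fun v => (A v, W v)) (A ω, W ω) ≤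
        law p (fun v => (A v, W v)) (A ω, W ω) := law_pe_le hp.nonneg _ _ _
    refine a3.trans (a1.trans ?_)
    have a4 : law p W (W ω) ≤ Real.exp s * law (pe p E') W (W ω) := by
      have := mul_le_mul_of_nonneg_left a2 (Real.exp_pos s).le
      rw [← mul_assoc, ← Real.exp_add, add_neg_cancel, Real.exp_zero, one_mul] at this
      exact this
    calc δ * law p W (W ω) ≤ δ * (Real.exp s * law (pe p E') W (W ω)) :=
          mul_le_mul_of_nonneg_left a4 hδ
      _ = _ := by ring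
  · have h0 : law (pe p E') (fun v => (A v, W v)) (A ω, W ω) = 0 := by
      unfold law
      refine Finset.sum_eq_zero fun ω' _ => ?_
      split_ifs with h
      · unfold pe
        split_ifs with h'
        · by_contra hne
          refine hex ⟨ω', lt_of_le_of_ne (hp.nonneg ω') (Ne.symm hne), h', ?_, ?_⟩
          exacts [(Prod.ext_iff.mp h).1, (Prod.ext_iff.mp h).2]
        · rfl
      · rfl
    rw [h0]
    exact mul_nonneg (mul_nonneg (Real.exp_pos s).le hδ) (law_nonneg hq _ _)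

theorem law_pe_congr {p : Ω → ℝ} {E E' : Set Ω} (W : Ω → U) (u : U)
    (h : ∀ ω, W ω = u → (ω ∈ E ↔ ω ∈ E')) : law (pe p E) W u = law (pe p E') W u := by
  classical
  unfold law pe
  refine Finset.sum_congr rfl fun ω _ => ?_
  by_cases hW : W ω = u
  · simp only [hW, if_true, h ω hW]
  · simp [hW]

end RTY

open RTY in
/-- Restriction to a type: densities increase little. -/
theorem rty_thm : RTYStmt := by
  classical
  intro Ω L ζ _ p l Z hp E s hs hE
  have hexp : 0 < Real.exp (-s) := Real.exp_pos _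
  set LZ : Ω → L × ζ := fun v => (l v, Z v) with hLZ
  set G1 : Set Ω := {ω | Real.exp (-s) * law p LZ (LZ ω) ≤ law (pe p E) LZ (LZ ω)} with hG1
  set E1 : Set Ω := E ∩ G1 with hE1
  set G2 : Set Ω := {ω | Real.exp (-s) * law p Z (Z ω) ≤ law (pe p E1) Z (Z ω)} with hG2
  set E' : Set Ω := E1 ∩ G2 with hE'
  have hsub : E' ⊆ E := fun ω h => h.1.1
  have b1 : Pr p E ≤ Pr p E1 + Real.exp (-s) := by
    refine (Pr_mono hp.nonneg (F := E1 ∪ {ω | ω ∈ E ∧ law (pe p E) LZ (LZ ω) <
      Real.exp (-s) * law p LZ (LZ ω)}) ?_).trans ((Pr_union_le hp.nonneg _ _).trans ?_)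
    · intro ω _ h
      by_cases hg : ω ∈ G1
      · exact Or.inl ⟨h, hg⟩
      · exact Or.inr ⟨h, not_le.mp hg⟩
    · exact add_le_add_right (Pr_small hp LZ E hexp.le) _
  have b2 : Pr p E1 ≤ Pr p E' + Real.exp (-s) := by
    refine (Pr_mono hp.nonneg (F := E' ∪ {ω | ω ∈ E1 ∧ law (pe p E1) Z (Z ω) <
      Real.exp (-s) * law p Z (Z ω)}) ?_).trans ((Pr_union_le hp.nonneg _ _).trans ?_)
    · intro ω _ h
      by_cases hg : ω ∈ G2
      · exact Or.inl ⟨h, hg⟩
      · exact Or.inr ⟨h, not_le.mp hg⟩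
    · exact add_le_add_right (Pr_small hp Z E1 hexp.le) _
  have hpos : 0 < Pr p E' := by linarith
  have hss : Real.exp s ≤ Real.exp (2 * s) := Real.exp_le_exp.mpr (by linarith)
  refine ⟨E', hsub, by linarith, ?_, ?_⟩
  · intro S A δ hδ h
    refine Sup_mono (rs_law hp hpos).nonneg (sup_of hp hsub hpos A Z (s := s) hδ ?_ h)
      (mul_le_mul_of_nonneg_right hss hδ)
    intro ω hω _
    rw [law_pe_congr (E := E') (E' := E1) Z (Z ω)]
    · exact hω.2
    · intro ω' hZ
      refine ⟨fun h => h.1, fun h => ⟨h, ?_⟩⟩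
      have := hω.2
      simp only [hG2, Set.mem_ofPred_eq] at this ⊢
      rwa [hZ]
  · intro S A δ hδ h
    refine Sup_mono (rs_law hp hpos).nonneg (sup_of hp hsub hpos A LZ (s := s) hδ ?_ h)
      (mul_le_mul_of_nonneg_right hss hδ)
    intro ω hω _
    rw [law_pe_congr (E := E') (E' := E) LZ (LZ ω)]
    · exact hω.1.2
    · intro ω' hZ
      refine ⟨fun h => h.1.1, fun h => ⟨⟨h, ?_⟩, ?_⟩⟩
      · have := hω.1.2
        simp only [hG1, Set.mem_ofPred_eq] at this ⊢
        rwa [hZ]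
      · have := hω.2
        simp only [hG2, Set.mem_ofPred_eq] at this ⊢
        have e2 : Z ω' = Z ω := (Prod.ext_iff.mp hZ).2
        rw [e2]
        exact this

end Pool.KAF
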